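import Pool.Agent.W37.SG.Stm

/-!
Project SG (helper37): the submodules of `U (p^k)` stable under `Q` are the `U n`.
-/

set_option autoImplicit false

namespace Pool.Agent.W303.SG.D5

open Pool.Agent.W37.SG

theorem mon_mem {p i n : ℕ} (h : i < n) : mon p i ∈ U p n :=
  Submodule.subset_span ⟨i, h, rfl⟩

theorem U_mono {p m n : ℕ} (h : m ≤ n) : U p m ≤ U p n := by
  apply Submodule.span_mono
  rintro f ⟨i, hi, rfl⟩
  exact ⟨i, lt_of_lt_of_le hi h, rfl⟩

theorem U_zero (p : ℕ) : U p 0 = ⊥ := by
  unfold U
  have : {f : Fn p | ∃ i < 0, f = mon p i} = ∅ := by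
    ext f
    simp
  rw [this, Submodule.span_empty]

theorem mem_succ {p i : ℕ} {f : Fn p} (h : f ∈ U p (i + 1)) :
    ∃ b : ZMod p, f - b • mon p i ∈ U p i := by
  have hs : {f : Fn p | ∃ j < i + 1, f = mon p j} =
      insert (mon p i) {f : Fn p | ∃ j < i, f = mon p j} := by
    ext f
    simp only [Set.mem_ofPred_eq, Set.mem_insert_iff]
    constructor
    · rintro ⟨j, hj, rfl⟩
      rcases Nat.lt_succ_iff_lt_or_eq.mp hj with h1 | h1
      · exact Or.inr ⟨j, h1, rfl⟩
      · exact Or.inl (by rw [h1])
    · rintro (rfl | ⟨j, hj, rfl⟩)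
      · exact ⟨i, Nat.lt_succ_self i, rfl⟩
      · exact ⟨j, Nat.lt_succ_of_lt hj, rfl⟩
  unfold U at h
  rw [hs, Submodule.mem_span_insert] at h
  obtain ⟨b, z, hz, rfl⟩ := h
  exact ⟨b, by simpa [U] using hz⟩

theorem ed_ne {p : ℕ} [Fact p.Prime] {i : ℕ} (hi : i ≠ 0) : ed p i ≠ 0 := by
  unfold ed
  rw [Ne, ZMod.natCast_eq_zero_iff]
  intro h
  have hp := (Fact.out : p.Prime)
  have h1 : i / p ^ padicValNat p i % p < p := Nat.mod_lt _ hp.pos
  have h0 : i / p ^ padicValNat p i % p = 0 := Nat.eq_zero_of_dvd_of_lt h h1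
  have hd : p ^ padicValNat p i ∣ i := pow_padicValNat_dvd
  have h2 : p ∣ i / p ^ padicValNat p i := Nat.dvd_of_mod_eq_zero h0
  have h3 : p ^ (padicValNat p i + 1) ∣ i := by
    rw [pow_succ]
    obtain ⟨c, hc⟩ := h2
    refine ⟨c, ?_⟩
    rw [mul_assoc, ← hc, Nat.mul_div_cancel' hd]
  exact pow_succ_padicValNat_not_dvd hi h3

theorem main : S_D5 := by
  intro _ h2 p _ k Q htri htau W hW hst
  have hex : ∃ n, W ≤ U p n := ⟨p ^ k, hW⟩
  classical
  set n := Nat.find hex with hn
  have hWn : W ≤ U p n := Nat.find_spec hex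
  have hnk : n ≤ p ^ k := Nat.find_min' hex hW
  refine ⟨n, hnk, le_antisymm hWn ?_⟩
  have hp := (Fact.out : p.Prime)
  rcases Nat.eq_zero_or_pos n with h0 | h0
  · rw [h0, U_zero]; exact bot_le
  · obtain ⟨i, hi⟩ : ∃ i, n = i + 1 := ⟨n - 1, by omega⟩
    have hnot : ¬ W ≤ U p i := fun h => by
      have := Nat.find_min' hex h
      omega
    obtain ⟨f, hf, hfi⟩ := Set.not_subset.mp hnot
    -- descending induction
    have key : ∀ t, t ≤ i → ∃ b : ZMod p, b ≠ 0 ∧ ∃ f ∈ W, f - b • mon p (i - t) ∈ U p (i - t) := by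
      intro t
      induction t with
      | zero =>
        intro _
        have hf1 : f ∈ U p (i + 1) := by rw [← hi]; exact hWn hf
        obtain ⟨b, hb⟩ := mem_succ hf1
        refine ⟨b, ?_, f, hf, by simpa using hb⟩
        rintro rfl
        apply hfi
        simpa using hb
      | succ t ih =>
        intro ht
        obtain ⟨b, hb, f, hf, hfu⟩ := ih (by omega)
        set j := i - t with hj
        have hj1 : 1 ≤ j := by omega
        have hjk : j < p ^ k := by omega
        have hj' : i - (t + 1) = j - 1 := by omega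
        rw [hj']
        have hv : padicValNat p j < k := by
          have hd : p ^ padicValNat p j ∣ j := pow_padicValNat_dvd
          have hle := Nat.le_of_dvd (by omega) hd
          exact (Nat.pow_lt_pow_iff_right hp.one_lt).mp (lt_of_le_of_lt hle hjk)
        obtain ⟨g, hg, hgt⟩ := htau _ hv
        obtain ⟨hdep, hlead⟩ := h2 p g (htri g hg)
        refine ⟨b * cf p j g, ?_, (fun x => f (g x)) - f, W.sub_mem (hst g hg f hf) hf, ?_⟩
        · apply mul_ne_zero hb
          unfold cf
          refine mul_ne_zero (ed_ne (by omega)) (mul_ne_zero ?_ hgt)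
          exact pow_ne_zero _ (neg_ne_zero.mpr one_ne_zero)
        · have a1 := hdep j _ hfu
          have a2 := (U p (j - 1)).smul_mem b (hlead j hj1)
          have := (U p (j - 1)).add_mem a1 a2
          convert this using 1
          funext x
          simp only [Pi.sub_apply, Pi.smul_apply, Pi.add_apply, smul_eq_mul]
          ring
    have hall : ∀ m, m ≤ i + 1 → U p m ≤ W := by
      intro m
      induction m with
      | zero => intro _; rw [U_zero]; exact bot_le
      | succ m ih =>
        intro hm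
        have hUm := ih (by omega)
        obtain ⟨b, hb, f, hf, hfu⟩ := key (i - m) (by omega)
        have e : i - (i - m) = m := by omega
        rw [e] at hfu
        have h3 : b • mon p m ∈ W := by
          have := W.sub_mem hf (hUm hfu)
          simpa using this
        have h4 : mon p m ∈ W := by
          have := W.smul_mem b⁻¹ h3
          rwa [smul_smul, inv_mul_cancel₀ hb, one_smul] at this
        unfold U
        rw [Submodule.span_le]
        rintro f' ⟨j, hj, rfl⟩
        rcases Nat.lt_succ_iff_lt_or_eq.mp hj with h5 | h5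
        · exact hUm (mon_mem h5)
        · rw [h5]; exact h4
    rw [hi]
    exact hall (i + 1) le_rfl

end Pool.Agent.W303.SG.D5
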